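import Pool.Agent.HP27.EN.F
import Pool.Agent.R482.Sing
import Pool.Agent.R482.Vm

/-!
# The joint conjecture for all shifts near independent random numbers with small collision probabilities

No structure of the random numbers `X i` is used, only that the sums of some number `q i` of independent copies of `X i`
collide with a probability which is minimal up to a power of the logarithm. New: the estimate with arbitrary coefficients
for one random shift under this hypothesis, the passage to all the shifts at a distance of at most `log ^ W N` from the random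
numbers, and the joint law (`Pool.Agent.HP27.EN`, after `Pool.Agent.HP25.OS` of helper25). From the starting files: the
majorant and orthogonality estimates (`Pool.Agent.TH872.Sq`) and the passage from one shift to the prime tuples
(`Pool.Agent.N469.PT.ws_final`).
-/

set_option autoImplicit false

namespace Pool.Agent.Results.MP_e6fa8b_nt.CollisionCriterion

open Finset Filter

/-- For every prime `p` there is an integer `r` such that `p` divides none of the `r + h i`. -/
def Admissible {k : ℕ} (h : Fin k → ℕ) : Prop := ∀ p : ℕ, p.Prime → ∃ r : ℤ, ∀ i, ¬ (p : ℤ) ∣ r + h i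

/-- The number `ν_p` of the distinct residues modulo `p` among the shifts `h i`. -/
def nu {k : ℕ} (h : Fin k → ℕ) (p : ℕ) : ℕ := (univ.image fun i => h i % p).card

/-- The product of the factors `β_p` of the singular series of the shifts `h i` over the primes `p ≤ z`. -/
noncomputable def sing {k : ℕ} (h : Fin k → ℕ) (z : ℕ) : ℝ :=
  ∏ p ∈ (Icc 1 z).filter Nat.Prime, ((1 - 1 / (p : ℝ)) ^ k)⁻¹ * (1 - (nu h p : ℝ) / p)

/-- The singular series `S` of the shifts `h i` converges, is positive if the shifts are admissible, and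
`|∑_{n ≤ N} ∏ i, Λ(n + h i) - S N| ≤ N / log ^ U N`. -/
def HardyLittlewood (U N : ℕ) {k : ℕ} (h : Fin k → ℕ) : Prop :=
  ∃ S : ℝ, (Admissible h → 0 < S) ∧ Tendsto (sing h) atTop (nhds S) ∧
    |∑ n ∈ Icc 1 N, ∏ i, ArithmeticFunction.vonMangoldt (n + h i) - S * N| ≤ N / Real.log N ^ U

/-- The Liouville function. -/
noncomputable def liouville (n : ℕ) : ℝ := (-1) ^ ArithmeticFunction.cardFactors n

/-- `|∑_{n ≤ N} θ(n) ∏ i, Λ(n + h i) ∏ j, λ(n + h' j)| ≤ N / log ^ U N` -/
def Small (U N : ℕ) (θ : ℕ → ℝ) {s t : ℕ} (h : Fin s → ℕ) (h' : Fin t → ℕ) : Prop :=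
  |∑ n ∈ Icc 1 N, θ n * (∏ i, ArithmeticFunction.vonMangoldt (n + h i)) * ∏ j, liouville (n + h' j)| ≤ N / Real.log N ^ U

open Classical in
/-- The probability that `|X₁ + ... + X_q - X'₁ - ... - X'_q| ≤ 1`, if the `X_j` and `X'_j` are independent random numbers
which take the value `a x` with the probability `p x`. -/
noncomputable def collision {ι : Type} [Fintype ι] (q : ℕ) (p a : ι → ℝ) : ℝ :=
  ∑ x : Fin q → ι, ∑ y : Fin q → ι, if |∑ j, a (x j) - ∑ j, a (y j)| ≤ 1 then (∏ j, p (x j)) * ∏ j, p (y j) else 0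

open Classical in
/-- The probability of the event `E` if the `x i` are independent and `x i` takes each value `y` with the probability
`p i y`. -/
noncomputable def Prob {r : ℕ} {ι : Fin r → Type} [∀ i, Fintype (ι i)] (p : ∀ i, ι i → ℝ) (E : (∀ i, ι i) → Prop) : ℝ :=
  ∑ x : (∀ i, ι i), if E x then ∏ i, p i (x i) else 0

lemma coll_eq {ι : Type} [Fintype ι] (q : ℕ) (p a : ι → ℝ) : Pool.Agent.HP27.EN.coll q p a = collision q p a := rfl

lemma sing_eq {k : ℕ} (a : Fin k → ℕ) :
    (fun z => Pool.Agent.H373R2.T7.singZ (fun i => (a i : ℤ)) z) = sing (Fin.cons 0 a : Fin (k + 1) → ℕ) := by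
  funext z
  have h1 := Pool.Agent.R482.Sg.singZ_sg (Fin.cons 0 a : Fin (k + 1) → ℕ) z
  simp only [Fin.cons_zero, Fin.cons_succ, Nat.cast_zero, sub_zero] at h1
  rw [h1]
  rfl

lemma adm_eq {k : ℕ} (a : Fin k → ℕ) :
    Pool.Agent.H373R2.T7.Admissible (fun i => (a i : ℤ)) ↔ Admissible (Fin.cons 0 a : Fin (k + 1) → ℕ) := by
  unfold Pool.Agent.H373R2.T7.Admissible Admissible
  apply forall_congr'
  intro p
  apply imp_congr_right
  intro _
  apply exists_congr
  intro r
  rw [Fin.forall_fin_succ]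
  simp only [Fin.cons_zero, Fin.cons_succ, Nat.cast_zero, add_zero]

/-- Let `s`, `t`, `T`, `κ`, `U`, `W` and the orders `q i ≥ 1` (`i < s + t`) be fixed and let `N` be large. Let `X i = a i (x i)`,
`i < s + t`, be independent random real numbers with `- log ^ W N ≤ X i ≤ T N`, each with an ARBITRARY distribution on a finite
set, such that for each `i` the sums of `q i` and of further `q i` independent copies of `X i` differ by at most `1` with a
probability of at most `log ^ κ N / N`; let `θ l` be at most `log ^ κ N` functions bounded by `log ^ κ N` on `[1, N]`. Then,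
with a probability of at least `1 - 1 / log ^ U N`, ALL the integers `h i ≥ 0` with `|h i - X i| ≤ log ^ W N` have the
following properties: the formula of Hardy and Littlewood holds for the shifts `0, h 1, ..., h s` (if `s ≥ 1`), and, if `t ≥ 1`,
the correlations of `Λ` at the shifts `h 1, ..., h s` and of `λ` at the shifts `h (s + 1), ..., h (s + t)`, weighted with any
`θ l` (for instance `1` or `Λ`), are at most `N / log ^ U N`. -/
theorem result (s t : ℕ) (q : Fin (s + t) → ℕ) (hq : ∀ i, 1 ≤ q i) (T κ U W : ℕ) :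
    ∃ N₀ : ℕ, ∀ N, N₀ ≤ N → ∀ (ι : Fin (s + t) → Type) [∀ i, Fintype (ι i)] (p a : ∀ i, ι i → ℝ),
      (∀ i, (∀ x, 0 ≤ p i x) ∧ ∑ x, p i x = 1 ∧ (∀ x, -Real.log N ^ W ≤ a i x ∧ a i x ≤ T * N) ∧
        collision (q i) (p i) (a i) ≤ Real.log N ^ κ / N) →
      ∀ L : ℕ, (L : ℝ) ≤ Real.log N ^ κ → ∀ θ : Fin L → ℕ → ℝ, (∀ l, ∀ n ∈ Icc 1 N, |θ l n| ≤ Real.log N ^ κ) →
      1 - 1 / Real.log N ^ U ≤ Prob p fun x =>
        ∀ h : Fin (s + t) → ℕ, (∀ i, |(h i : ℝ) - a i (x i)| ≤ Real.log N ^ W) →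
          (1 ≤ s → HardyLittlewood U N (Fin.cons 0 fun i => h (Fin.castAdd t i) : Fin (s + 1) → ℕ)) ∧
          (1 ≤ t → ∀ l, Small U N (θ l) (fun i => h (Fin.castAdd t i)) fun j => h (Fin.natAdd s j)) := by
  classical
  obtain ⟨F, W', U', hUU, N1, h1⟩ := Pool.Agent.HP27.EN.near_fam (s + t) q hq T κ W U
  obtain ⟨N2, h2⟩ := Pool.Agent.HP27.EN.joint_laws s t κ U' q hq F W'
  obtain ⟨N3, h3⟩ := Pool.Agent.R482.Vm.vm_of_tuple s U (T + 1)
  obtain ⟨N4, hN4⟩ : ∃ N4 : ℕ, ∀ N : ℕ, N4 ≤ N → 1 ≤ Real.log N ∧ Real.log N ^ W ≤ N := by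
    have g1 := (tendsto_natCast_atTop_atTop (R := ℝ)).eventually
      ((isLittleO_log_rpow_atTop (r := 1 / ((W : ℝ) + 1)) (by positivity)).def (c := 1) one_pos)
    have g2 := (tendsto_natCast_atTop_atTop (R := ℝ)).eventually_ge_atTop (Real.exp 1)
    obtain ⟨n0, g3⟩ := eventually_atTop.1 (g1.and g2)
    refine ⟨n0 + 1, fun N hN => ?_⟩
    obtain ⟨g4, g5⟩ := g3 N (by omega)
    have hN1 : (1 : ℝ) ≤ N := by exact_mod_cast (by omega : 1 ≤ N)
    have hN0 : (0 : ℝ) < N := by linarith
    have hl : 1 ≤ Real.log N := by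
      rw [Real.le_log_iff_exp_le hN0]
      exact g5
    refine ⟨hl, ?_⟩
    rw [Real.norm_of_nonneg (by linarith), Real.norm_of_nonneg (by positivity), one_mul] at g4
    calc Real.log N ^ W ≤ ((N : ℝ) ^ (1 / ((W : ℝ) + 1))) ^ W := pow_le_pow_left₀ (by linarith) g4 W
      _ = (N : ℝ) ^ (1 / ((W : ℝ) + 1) * W) := by rw [Real.rpow_mul hN0.le, Real.rpow_natCast]
      _ ≤ (N : ℝ) ^ (1 : ℝ) := by
          apply Real.rpow_le_rpow_of_exponent_le hN1
          rw [one_div, inv_mul_le_iff₀ (by positivity)]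
          linarith
      _ = N := Real.rpow_one _
  refine ⟨N1 + N2 + N3 + N4 + 3, fun N hN ι _ p a hX L hL θ hθ => ?_⟩
  obtain ⟨hl1, hlW⟩ := hN4 N (by omega)
  have hNr : (0 : ℝ) < N := by exact_mod_cast (by omega : 0 < N)
  have hmono : ∀ V V' : ℕ, V ≤ V' → (N : ℝ) / Real.log N ^ V' ≤ N / Real.log N ^ V := fun V V' hV =>
    div_le_div_of_nonneg_left hNr.le (by positivity) (pow_le_pow_right₀ hl1 hV)
  have hp0 : ∀ x : (∀ i, ι i), 0 ≤ ∏ i, p i (x i) := fun x => prod_nonneg fun i _ => (hX i).1 _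
  have hp1 : ∑ x : (∀ i, ι i), ∏ i, p i (x i) = 1 := by
    have g1 := prod_univ_sum (fun i => (univ : Finset (ι i))) (fun i x => p i x)
    rw [Fintype.piFinset_univ] at g1
    rw [← g1]
    exact prod_eq_one fun i _ => (hX i).2.1
  -- the property, for shifts of the right size
  have h4 := h1 N (by omega) (fun h => ¬ ((1 ≤ s → Pool.Agent.W93.TD.HLs 1 (U' + 1) N (fun i : Fin s => h (Fin.castAdd t i))) ∧
      (1 ≤ t → ∀ l, |Pool.Agent.HP25.OS.corr (θ l) N h| ≤ N / Real.log N ^ U'))) (fun Ω p' hlaw => by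
      convert h2 N (by omega) L hL θ hθ Ω p' hlaw) ι p a (fun i => (hX i).1) (fun i => (hX i).2.1) (fun i => (hX i).2.2.1)
      (fun i => by
        have g1 := (hX i).2.2.2
        rw [le_div_iff₀ hNr, mul_comm] at g1
        rw [coll_eq]
        exact g1)
  obtain ⟨E, hE⟩ : ∃ E : (∀ i, ι i) → Prop, E = fun x =>
        ∀ h : Fin (s + t) → ℕ, (∀ i, |(h i : ℝ) - a i (x i)| ≤ Real.log N ^ W) →
          (1 ≤ s → HardyLittlewood U N (Fin.cons 0 fun i => h (Fin.castAdd t i) : Fin (s + 1) → ℕ)) ∧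
          (1 ≤ t → ∀ l, Small U N (θ l) (fun i => h (Fin.castAdd t i)) fun j => h (Fin.natAdd s j)) := ⟨_, rfl⟩
  rw [← hE]
  have h5 : ∀ x : (∀ i, ι i), (∏ i, p i (x i)) ≤ (if E x then ∏ i, p i (x i) else 0) +
      (if ∃ h : Fin (s + t) → ℕ, (∀ i, |(h i : ℝ) - a i (x i)| ≤ Real.log N ^ W) ∧
        ¬ ((1 ≤ s → Pool.Agent.W93.TD.HLs 1 (U' + 1) N (fun i : Fin s => h (Fin.castAdd t i))) ∧
          (1 ≤ t → ∀ l, |Pool.Agent.HP25.OS.corr (θ l) N h| ≤ N / Real.log N ^ U')) then ∏ i, p i (x i) else 0) := by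
    intro x
    by_cases hx : E x
    · rw [if_pos hx]
      have : 0 ≤ (if ∃ h : Fin (s + t) → ℕ, (∀ i, |(h i : ℝ) - a i (x i)| ≤ Real.log N ^ W) ∧
        ¬ ((1 ≤ s → Pool.Agent.W93.TD.HLs 1 (U' + 1) N (fun i : Fin s => h (Fin.castAdd t i))) ∧
          (1 ≤ t → ∀ l, |Pool.Agent.HP25.OS.corr (θ l) N h| ≤ N / Real.log N ^ U')) then ∏ i, p i (x i) else 0) := by
        split_ifs
        · exact hp0 x
        · exact le_rfl
      linarith
    · rw [if_neg hx, zero_add, if_pos]
      rw [hE] at hx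
      push Not at hx
      obtain ⟨h, hh, h6⟩ := hx
      refine ⟨h, hh, fun h7 => ?_⟩
      obtain ⟨h8, h9⟩ := h7
      have hsmall : 1 ≤ t → ∀ l, Small U N (θ l) (fun i => h (Fin.castAdd t i)) fun j => h (Fin.natAdd s j) := by
        intro ht l
        exact (h9 ht l).trans (hmono U U' hUU)
      have hHL : 1 ≤ s → HardyLittlewood U N (Fin.cons 0 fun i => h (Fin.castAdd t i) : Fin (s + 1) → ℕ) := by
        intro hs
        obtain ⟨S, q1, q2, q3⟩ := h8 hs
        refine ⟨S, fun had => (q3 ((adm_eq _).2 had)).1, ?_, ?_⟩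
        · rw [← sing_eq]
          exact q1
        · have g1 := h3 N (by omega) (fun i => h (Fin.castAdd t i)) (fun i => by
            have g2 := (abs_le.1 (hh (Fin.castAdd t i))).2
            have g3 := ((hX (Fin.castAdd t i)).2.2.1 (x (Fin.castAdd t i))).2
            have g4 : (h (Fin.castAdd t i) : ℝ) ≤ (((T + 1) * N : ℕ) : ℝ) := by
              push_cast
              nlinarith
            exact_mod_cast g4) S (q2.trans (hmono (U + 1) (U' + 1) (by omega)))
          refine le_trans (le_of_eq ?_) g1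
          congr 2
          apply sum_congr rfl
          intro n _
          rw [Fin.prod_univ_succ, Fin.cons_zero, add_zero]
          simp only [Fin.cons_succ]
      obtain ⟨ht, l, hl⟩ := h6 hHL
      exact hl (hsmall ht l)
  have h6 := sum_le_sum (s := (univ : Finset (∀ i, ι i))) fun x _ => h5 x
  rw [hp1, sum_add_distrib] at h6
  have h7 : Prob p E = ∑ x : (∀ i, ι i), if E x then ∏ i, p i (x i) else 0 := by
    unfold Prob
    apply sum_congr rfl
    intro x _
    congr
  rw [h7]
  linarith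

end Pool.Agent.Results.MP_e6fa8b_nt.CollisionCriterion
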