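import Pool.Agent.HP25.FD.E
import Pool.Agent.HP25.OS.G
import Pool.Agent.R482.Sing
import Pool.Agent.R482.Vm

/-!
# The joint conjecture for all shifts near the multiples `N_k x` of almost all vectors `x`, for all products of measures
whose Fourier transforms decay polynomially

New: the approximation of measures on the line by uniform finite families, and the bound for the moments of these families,
at all scales, in terms of the Fourier transform of the measure (`Pool.Agent.HP25.FD`); the estimate with arbitrary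
coefficients for one shift which is close to a random real number with a bounded moment (`Pool.Agent.HP25.OS`). From the
starting files: the passage from one shift to the prime tuples (`Pool.Agent.N469.PT.ws_final`).
-/

set_option autoImplicit false

namespace Pool.Agent.Results.MP_e6fa8b_nt.FourierDimension

open Finset Filter Topology MeasureTheory

/-- `ν` is a probability measure on `[0, T]` whose Fourier transform is at most `C |t| ^ (-δ)`. -/
structure PowerDecay (ν : Measure ℝ) (T : ℕ) (C δ : ℝ) : Prop where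
  prob : IsProbabilityMeasure ν
  supp : ν (Set.Icc (0 : ℝ) T)ᶜ = 0
  decay : ∀ t : ℝ, ‖charFun ν t‖ * |t| ^ δ ≤ C

/-- For every prime `p` there is an integer `r` such that `p` divides none of the `r + h i`. -/
def Admissible {k : ℕ} (h : Fin k → ℕ) : Prop := ∀ p : ℕ, p.Prime → ∃ r : ℤ, ∀ i, ¬ (p : ℤ) ∣ r + h i

/-- The number `ν_p` of the distinct residues modulo `p` among the shifts `h i`. -/
def nu {k : ℕ} (h : Fin k → ℕ) (p : ℕ) : ℕ := (univ.image fun i => h i % p).card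

/-- The product of the factors `β_p` of the singular series of the shifts `h i` over the primes `p ≤ z`. -/
noncomputable def sing {k : ℕ} (h : Fin k → ℕ) (z : ℕ) : ℝ :=
  ∏ p ∈ (Icc 1 z).filter Nat.Prime, ((1 - 1 / (p : ℝ)) ^ k)⁻¹ * (1 - (nu h p : ℝ) / p)

/-- The singular series `S` of the shifts `h i` converges, is positive if the shifts are admissible, and
`|∑_{n ≤ N} ∏ i, Λ(n + h i) - S N| ≤ N / log ^ U N`. -/
def HardyLittlewood (U N : ℕ) {k : ℕ} (h : Fin k → ℕ) : Prop :=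
  ∃ S : ℝ, (Admissible h → 0 < S) ∧ Tendsto (sing h) atTop (nhds S) ∧
    |∑ n ∈ Icc 1 N, ∏ i, ArithmeticFunction.vonMangoldt (n + h i) - S * N| ≤ N / Real.log N ^ U

/-- The Liouville function. -/
noncomputable def liouville (n : ℕ) : ℝ := (-1) ^ ArithmeticFunction.cardFactors n

/-- `|∑_{n ≤ N} θ(n) ∏ i, Λ(n + h i) ∏ j, λ(n + h' j)| ≤ N / log ^ U N` -/
def Small (U N : ℕ) (θ : ℕ → ℝ) {s t : ℕ} (h : Fin s → ℕ) (h' : Fin t → ℕ) : Prop :=
  |∑ n ∈ Icc 1 N, θ n * (∏ i, ArithmeticFunction.vonMangoldt (n + h i)) * ∏ j, liouville (n + h' j)| ≤ N / Real.log N ^ U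

lemma sing_eq {k : ℕ} (a : Fin k → ℕ) :
    (fun z => Pool.Agent.H373R2.T7.singZ (fun i => (a i : ℤ)) z) = sing (Fin.cons 0 a : Fin (k + 1) → ℕ) := by
  funext z
  have h1 := Pool.Agent.R482.Sg.singZ_sg (Fin.cons 0 a : Fin (k + 1) → ℕ) z
  simp only [Fin.cons_zero, Fin.cons_succ, Nat.cast_zero, sub_zero] at h1
  rw [h1]
  rfl

lemma adm_eq {k : ℕ} (a : Fin k → ℕ) :
    Pool.Agent.H373R2.T7.Admissible (fun i => (a i : ℤ)) ↔ Admissible (Fin.cons 0 a : Fin (k + 1) → ℕ) := by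
  unfold Pool.Agent.H373R2.T7.Admissible Admissible
  apply forall_congr'
  intro p
  apply imp_congr_right
  intro _
  apply exists_congr
  intro r
  rw [Fin.forall_fin_succ]
  simp only [Fin.cons_zero, Fin.cons_succ, Nat.cast_zero, add_zero]

lemma logs_ev (W : ℕ) : ∃ N4 : ℕ, ∀ N : ℕ, N4 ≤ N → 1 ≤ Real.log N ∧ Real.log N ^ W ≤ N := by
  have g1 := (tendsto_natCast_atTop_atTop (R := ℝ)).eventually
    ((isLittleO_log_rpow_atTop (r := 1 / ((W : ℝ) + 1)) (by positivity)).def (c := 1) one_pos)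
  have g2 := (tendsto_natCast_atTop_atTop (R := ℝ)).eventually_ge_atTop (Real.exp 1)
  obtain ⟨n0, g3⟩ := eventually_atTop.1 (g1.and g2)
  refine ⟨n0 + 1, fun N hN => ?_⟩
  obtain ⟨g4, g5⟩ := g3 N (by omega)
  have hN1 : (1 : ℝ) ≤ N := by exact_mod_cast (by omega : 1 ≤ N)
  have hN0 : (0 : ℝ) < N := by linarith
  have hl : 1 ≤ Real.log N := by
    rw [Real.le_log_iff_exp_le hN0]
    exact g5
  refine ⟨hl, ?_⟩
  rw [Real.norm_of_nonneg (by linarith), Real.norm_of_nonneg (by positivity), one_mul] at g4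
  calc Real.log N ^ W ≤ ((N : ℝ) ^ (1 / ((W : ℝ) + 1))) ^ W := pow_le_pow_left₀ (by linarith) g4 W
    _ = (N : ℝ) ^ (1 / ((W : ℝ) + 1) * W) := by rw [Real.rpow_mul hN0.le, Real.rpow_natCast]
    _ ≤ (N : ℝ) ^ (1 : ℝ) := by
        apply Real.rpow_le_rpow_of_exponent_le hN1
        rw [one_div, inv_mul_le_iff₀ (by positivity)]
        linarith
    _ = N := Real.rpow_one _

/-- the property of the vector `x` at the scale `N` -/
def Good (s t U W N : ℕ) {L : ℕ} (θ : Fin L → ℕ → ℝ) (x : Fin (s + t) → ℝ) : Prop :=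
  ∀ h : Fin (s + t) → ℕ, (∀ i, |(h i : ℝ) - N * x i| ≤ Real.log N ^ W) →
    (1 ≤ s → HardyLittlewood U N (Fin.cons 0 fun i => h (Fin.castAdd t i) : Fin (s + 1) → ℕ)) ∧
    (1 ≤ t → ∀ l, Small U N (θ l) (fun i => h (Fin.castAdd t i)) fun j => h (Fin.natAdd s j))

lemma good_mono (s t U U' W N : ℕ) {L : ℕ} (θ : Fin L → ℕ → ℝ) (x : Fin (s + t) → ℝ) (hU : U ≤ U') (hl : 1 ≤ Real.log N)
    (h : Good s t U' W N θ x) : Good s t U W N θ x := by
  have hmono : (N : ℝ) / Real.log N ^ U' ≤ N / Real.log N ^ U :=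
    div_le_div_of_nonneg_left (Nat.cast_nonneg _) (by positivity) (pow_le_pow_right₀ hl hU)
  intro a ha
  obtain ⟨h1, h2⟩ := h a ha
  refine ⟨fun hs => ?_, fun ht l => (h2 ht l).trans hmono⟩
  obtain ⟨S, q1, q2, q3⟩ := h1 hs
  exact ⟨S, q1, q2, q3.trans hmono⟩

open Classical in
lemma key (s t : ℕ) (T : ℕ) (hT : 1 ≤ T) (C δ : Fin (s + t) → ℝ) (hδ : ∀ i, 0 < δ i) (κ U W : ℕ) :
    ∃ N₀ : ℕ, ∀ N, N₀ ≤ N → ∀ ν : Fin (s + t) → Measure ℝ, (∀ i, PowerDecay (ν i) T (C i) (δ i)) →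
      ∀ L : ℕ, (L : ℝ) ≤ Real.log N ^ κ → ∀ θ : Fin L → ℕ → ℝ, (∀ l, ∀ n ∈ Icc 1 N, |θ l n| ≤ Real.log N ^ κ) →
      (Measure.pi ν).real {x | ¬ Good s t U W N θ x} ≤ 1 / Real.log N ^ U := by
  obtain ⟨q, C₀, F, W', U', hq, hC₀, hUU, N1, h1⟩ := Pool.Agent.HP25.FD.near_decay (s + t) C δ hδ T W U hT
  obtain ⟨N2, h2⟩ := Pool.Agent.HP25.OS.joint_laws s t κ U' q hq C₀ hC₀ F T W' hT
  obtain ⟨N3, h3⟩ := Pool.Agent.R482.Vm.vm_of_tuple s U (2 * T)
  obtain ⟨N4, hN4⟩ := logs_ev W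
  refine ⟨N1 + N2 + N3 + N4 + 3, fun N hN ν hν L hL θ hθ => ?_⟩
  obtain ⟨hl1, hlW⟩ := hN4 N (by omega)
  have hprob : ∀ i, IsProbabilityMeasure (ν i) := fun i => (hν i).prob
  have hTr : (1 : ℝ) ≤ T := by exact_mod_cast hT
  have hNr : (0 : ℝ) ≤ N := Nat.cast_nonneg _
  have hmono : ∀ V V' : ℕ, V ≤ V' → (N : ℝ) / Real.log N ^ V' ≤ N / Real.log N ^ V := fun V V' hV =>
    div_le_div_of_nonneg_left hNr (by positivity) (pow_le_pow_right₀ hl1 hV)
  have h4 := h1 N (by omega) (fun h => (∀ i, h i ≤ 2 * T * N) ∧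
      ¬ ((1 ≤ s → Pool.Agent.W93.TD.HLs 1 (U' + 1) N (fun i : Fin s => h (Fin.castAdd t i))) ∧
      (1 ≤ t → ∀ l, |Pool.Agent.HP25.OS.corr (θ l) N h| ≤ N / Real.log N ^ U'))) (fun Ω p hlaw hp => by
      refine le_trans (sum_le_sum ?_) (h2 N (by omega) L hL θ hθ Ω p hlaw)
      intro m hm
      have hP0 : 0 ≤ ∏ i, p i (m i) := prod_nonneg fun j _ => hp j _ (Fintype.mem_piFinset.1 hm j)
      by_cases g : (1 ≤ s → Pool.Agent.W93.TD.HLs 1 (U' + 1) N (fun i : Fin s => m (Fin.castAdd t i))) ∧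
        (1 ≤ t → ∀ l, |Pool.Agent.HP25.OS.corr (θ l) N m| ≤ N / Real.log N ^ U')
      · rw [if_neg (fun hc => hc.2 g), if_neg (not_not.2 g)]
      · rw [if_pos g]
        split_ifs
        · exact le_rfl
        · exact hP0) ν (fun i => (hν i).supp) (fun i => (hν i).decay)
  refine le_trans ?_ h4
  -- the points outside of the cube
  obtain ⟨Z, hZ⟩ : ∃ Z : Set (Fin (s + t) → ℝ), Z = ⋃ i, Function.eval i ⁻¹' (Set.Icc (0 : ℝ) T)ᶜ := ⟨_, rfl⟩
  have hZ0 : Measure.pi ν Z = 0 := by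
    rw [hZ, measure_iUnion_null_iff]
    intro i
    rw [(measurePreserving_eval ν i).measure_preimage measurableSet_Icc.compl.nullMeasurableSet]
    exact (hν i).supp
  have hsub : {x | ¬ Good s t U W N θ x} ⊆ {x : Fin (s + t) → ℝ | ∃ a : Fin (s + t) → ℕ, (∀ i, |(a i : ℝ) - N * x i| ≤ Real.log N ^ W) ∧
      ((∀ i, a i ≤ 2 * T * N) ∧ ¬ ((1 ≤ s → Pool.Agent.W93.TD.HLs 1 (U' + 1) N (fun i : Fin s => a (Fin.castAdd t i))) ∧
      (1 ≤ t → ∀ l, |Pool.Agent.HP25.OS.corr (θ l) N a| ≤ N / Real.log N ^ U')))} ∪ Z := by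
    intro x hx
    by_cases hxZ : x ∈ Z
    · exact Or.inr hxZ
    left
    rw [Set.mem_ofPred_eq] at hx ⊢
    unfold Good at hx
    push Not at hx
    obtain ⟨h, hh, h6⟩ := hx
    have hsize : ∀ i, h i ≤ 2 * T * N := by
      intro i
      have g1 : x i ∈ Set.Icc (0 : ℝ) T := by
        by_contra hcon
        apply hxZ
        rw [hZ, Set.mem_iUnion]
        exact ⟨i, hcon⟩
      have g2 := (abs_le.1 (hh i)).2
      have g3 : (N : ℝ) * x i ≤ N * T := mul_le_mul_of_nonneg_left g1.2 hNr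
      have g4 : (h i : ℝ) ≤ ((2 * T * N : ℕ) : ℝ) := by
        push_cast
        nlinarith
      exact_mod_cast g4
    refine ⟨h, hh, hsize, fun h7 => ?_⟩
    obtain ⟨h8, h9⟩ := h7
    have hsmall : 1 ≤ t → ∀ l, Small U N (θ l) (fun i => h (Fin.castAdd t i)) fun j => h (Fin.natAdd s j) := by
      intro ht l
      exact (h9 ht l).trans (hmono U U' hUU)
    have hHL : 1 ≤ s → HardyLittlewood U N (Fin.cons 0 fun i => h (Fin.castAdd t i) : Fin (s + 1) → ℕ) := by
      intro hs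
      obtain ⟨S, q1, q2, q3⟩ := h8 hs
      refine ⟨S, fun had => (q3 ((adm_eq _).2 had)).1, ?_, ?_⟩
      · rw [← sing_eq]
        exact q1
      · have g1 := h3 N (by omega) (fun i => h (Fin.castAdd t i)) (fun i => hsize (Fin.castAdd t i)) S
          (q2.trans (hmono (U + 1) (U' + 1) (by omega)))
        refine le_trans (le_of_eq ?_) g1
        congr 2
        apply sum_congr rfl
        intro n _
        rw [Fin.prod_univ_succ, Fin.cons_zero, add_zero]
        simp only [Fin.cons_succ]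
    obtain ⟨ht, l, hl⟩ := h6 hHL
    exact hl (hsmall ht l)
  have h5 : Measure.pi ν {x | ¬ Good s t U W N θ x} ≤ Measure.pi ν {x : Fin (s + t) → ℝ | ∃ a : Fin (s + t) → ℕ,
      (∀ i, |(a i : ℝ) - N * x i| ≤ Real.log N ^ W) ∧
      ((∀ i, a i ≤ 2 * T * N) ∧ ¬ ((1 ≤ s → Pool.Agent.W93.TD.HLs 1 (U' + 1) N (fun i : Fin s => a (Fin.castAdd t i))) ∧
      (1 ≤ t → ∀ l, |Pool.Agent.HP25.OS.corr (θ l) N a| ≤ N / Real.log N ^ U')))} := by
    refine (measure_mono hsub).trans ((measure_union_le _ _).trans ?_)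
    rw [hZ0, add_zero]
  exact ENNReal.toReal_mono (measure_lt_top _ _).ne h5

/-- Let `s`, `t`, `T ≥ 1`, `C i` and `δ i > 0` be fixed (`i < s + t`), let the `ν i` be probability measures on `[0, T]` whose
Fourier transforms are at most `C i |t| ^ (-δ i)`, and let `ν` be their product, a measure on the vectors `x`.

(1) Let `κ`, `U` and `W` be fixed, let `N` be large (in terms of these parameters, uniformly in the `ν i`), and let `θ l` be
at most `log ^ κ N` functions bounded by `log ^ κ N` on `[1, N]`. Then for all `x`, with the exception of a set of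
`ν`-measure at most `1 / log ^ U N`, ALL the integers `h i ≥ 0`, `i < s + t`, with `|h i - N x i| ≤ log ^ W N` have the
following properties: the formula of Hardy and Littlewood holds for the shifts `0, h 1, ..., h s` (if `s ≥ 1`), and, if
`t ≥ 1`, the correlations of `Λ` at the shifts `h 1, ..., h s` and of `λ` at the shifts `h (s + 1), ..., h (s + t)`, weighted
with any `θ l` (for instance `1` or `Λ`), are at most `N / log ^ U N`.

(2) Let `N_k` be natural numbers, `N_k ≥ exp (k ^ c)` for all large `k`, where `c > 0`, and let `θ_k` be functions bounded by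
`log ^ κ N_k` on `[1, N_k]`. Then `ν`-almost every `x` has the following property: for all `U` and `W`, for all large `k`,
ALL the integers `h i ≥ 0`, `i < s + t`, with `|h i - N_k x i| ≤ log ^ W N_k` have the properties in (1) (with `N = N_k` and
the weights `θ_k`). -/
theorem result (s t T : ℕ) (hT : 1 ≤ T) (C δ : Fin (s + t) → ℝ) (hδ : ∀ i, 0 < δ i) :
    (∀ κ U W : ℕ, ∃ N₀ : ℕ, ∀ N, N₀ ≤ N → ∀ ν : Fin (s + t) → Measure ℝ, (∀ i, PowerDecay (ν i) T (C i) (δ i)) →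
      ∀ L : ℕ, (L : ℝ) ≤ Real.log N ^ κ → ∀ θ : Fin L → ℕ → ℝ, (∀ l, ∀ n ∈ Icc 1 N, |θ l n| ≤ Real.log N ^ κ) →
      (Measure.pi ν).real {x | ¬ ∀ h : Fin (s + t) → ℕ, (∀ i, |(h i : ℝ) - N * x i| ≤ Real.log N ^ W) →
        (1 ≤ s → HardyLittlewood U N (Fin.cons 0 fun i => h (Fin.castAdd t i) : Fin (s + 1) → ℕ)) ∧
        (1 ≤ t → ∀ l, Small U N (θ l) (fun i => h (Fin.castAdd t i)) fun j => h (Fin.natAdd s j))} ≤ 1 / Real.log N ^ U) ∧
    (∀ ν : Fin (s + t) → Measure ℝ, (∀ i, PowerDecay (ν i) T (C i) (δ i)) → ∀ (N : ℕ → ℕ) (c : ℝ), 0 < c →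
      (∀ᶠ k : ℕ in atTop, Real.exp ((k : ℝ) ^ c) ≤ N k) → ∀ (κ : ℕ) (θ : ℕ → ℕ → ℝ),
      (∀ k, ∀ n ∈ Icc 1 (N k), |θ k n| ≤ Real.log (N k) ^ κ) →
      ∀ᵐ x ∂(Measure.pi ν), ∀ U W : ℕ, ∀ᶠ k : ℕ in atTop, ∀ h : Fin (s + t) → ℕ,
        (∀ i, |(h i : ℝ) - N k * x i| ≤ Real.log (N k) ^ W) →
        (1 ≤ s → HardyLittlewood U (N k) (Fin.cons 0 fun i => h (Fin.castAdd t i) : Fin (s + 1) → ℕ)) ∧
        (1 ≤ t → Small U (N k) (θ k) (fun i => h (Fin.castAdd t i)) fun j => h (Fin.natAdd s j))) := by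
  refine ⟨fun κ U W => key s t T hT C δ hδ κ U W, fun ν hν N c hc hN κ θ hθ => ?_⟩
  have hprob : ∀ i, IsProbabilityMeasure (ν i) := fun i => (hν i).prob
  have h1 : ∀ U W : ℕ, ∀ᵐ x ∂(Measure.pi ν), ∀ᶠ k : ℕ in atTop,
      x ∉ {x | ¬ Good s t U W (N k) (fun _ : Fin 1 => θ k) x} := by
    intro U W
    apply Pool.Agent.HP25.FD.ae_seq (Measure.pi ν) N c hc hN
    intro V
    obtain ⟨N₀, h2⟩ := key s t T hT C δ hδ κ (max U V) W
    obtain ⟨N4, hN4⟩ := logs_ev W
    refine ⟨N₀ + N4, fun k hk => ?_⟩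
    obtain ⟨hl, -⟩ := hN4 (N k) (by omega)
    have h3 := h2 (N k) (by omega) ν hν 1 (by
      rw [Nat.cast_one]
      exact one_le_pow₀ hl) (fun _ : Fin 1 => θ k) (fun _ => hθ k)
    have h4 : Measure.pi ν {x | ¬ Good s t U W (N k) (fun _ : Fin 1 => θ k) x} ≤
        Measure.pi ν {x | ¬ Good s t (max U V) W (N k) (fun _ : Fin 1 => θ k) x} := by
      apply measure_mono
      intro x hx hcon
      exact hx (good_mono s t U (max U V) W (N k) _ x (le_max_left _ _) hl hcon)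
    refine (ENNReal.toReal_mono (measure_lt_top _ _).ne h4).trans (h3.trans ?_)
    exact one_div_le_one_div_of_le (by positivity) (pow_le_pow_right₀ hl (le_max_right _ _))
  have h2 : ∀ᵐ x ∂(Measure.pi ν), ∀ U W : ℕ, ∀ᶠ k : ℕ in atTop,
      x ∉ {x | ¬ Good s t U W (N k) (fun _ : Fin 1 => θ k) x} := by
    rw [ae_all_iff]
    intro U
    rw [ae_all_iff]
    exact h1 U
  filter_upwards [h2] with x hx U W
  filter_upwards [hx U W] with k hk h hh
  have h3 := (not_not.1 hk) h hh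
  exact ⟨h3.1, fun ht => h3.2 ht 0⟩

end Pool.Agent.Results.MP_e6fa8b_nt.FourierDimension
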