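import Pool.Agent.U26Z.NP.Tr

/-!
# Joint correlations of the von Mangoldt function and the Liouville function with noise

`noisyLiouville ξ ω` is the completely multiplicative function with the value `-ξ p ω` at every prime
`p`, where the `ξ p` are independent random signs, `ξ p = -1` with probability `δ p ≤ 1/2`. So it arises
from the Liouville function by changing the sign at each prime `p` independently with probability `δ p`.
If `∑ δ p / p` diverges then every joint correlation with `k ≥ 0` factors `Λ` and `ℓ ≥ 1` factors of the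
noisy Liouville function tends to `0` in probability, and almost surely all of them tend to `0`
under a slightly stronger condition; if it converges then almost surely, for any shifts, the joint
correlations of the noisy function tend to `0` in all progressions if and only if those of the Liouville
function do.

From the starting files: an upper bound sieve (`Pool.Agent.Y959.Sv.Up`) and Mertens' theorem
(`Pool.Agent.Erdos456.Mertens`).
-/

set_option autoImplicit false

open Finset Filter Topology MeasureTheory ProbabilityTheory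

namespace Pool.Agent.Results.MP_e6fa8b_nt.NoisyJointCorrelations

/-- the Liouville function -/
def liouville (n : ℕ) : ℤ := (-1) ^ ArithmeticFunction.cardFactors n

/-- the completely multiplicative function with the value `-ξ p ω` at every prime `p` -/
def noisyLiouville {Ω : Type} (ξ : ℕ → Ω → ℤ) (ω : Ω) (n : ℕ) : ℤ :=
  n.factorization.prod fun p k => (-ξ p ω) ^ k

/-- the joint correlation sum
`∑_{n ≤ x} w(n) Λ(n + h₁) ⋯ Λ(n + h_k) f(n + h'₁) ⋯ f(n + h'_ℓ)` -/
noncomputable def corr (w : ℕ → ℝ) (f : ℕ → ℤ) {k ℓ : ℕ} (h : Fin k → ℕ) (h' : Fin ℓ → ℕ) (x : ℕ) : ℝ :=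
  ∑ n ∈ Icc 1 x, w n *
    ((∏ i, ArithmeticFunction.vonMangoldt (n + h i)) * ∏ j, (f (n + h' j) : ℝ))

/-- the indicator function of the residue class of `c` modulo `q` -/
noncomputable def residue (q c n : ℕ) : ℝ := if n % q = c % q then 1 else 0

/-- the joint correlation sums of `Λ` and `f` with the given shifts are `o(x)` in every residue class -/
def SmallInProgressions (f : ℕ → ℤ) {k ℓ : ℕ} (h : Fin k → ℕ) (h' : Fin ℓ → ℕ) : Prop :=
  ∀ q c : ℕ, 1 ≤ q → Tendsto (fun x : ℕ => corr (residue q c) f h h' x / x) atTop (𝓝 0)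

lemma corr_eq (w : ℕ → ℝ) (f : ℕ → ℤ) {k ℓ : ℕ} {h : Fin k → ℕ} {h' : Fin ℓ → ℕ}
    (hinj : Function.Injective (Sum.elim h h')) (x : ℕ) : corr w f h h' x =
      Pool.Agent.U26Z.NP.cs w (univ.image h) (univ.image h') f x := by
  unfold corr Pool.Agent.U26Z.NP.cs Pool.Agent.U26Z.NP.WW
  refine Finset.sum_congr rfl fun n _ => ?_
  have h1 : Function.Injective h := fun i j hij => by
    have := hinj (a₁ := Sum.inl i) (a₂ := Sum.inl j) hij
    exact Sum.inl_injective this
  have h2 : Function.Injective h' := fun i j hij => by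
    have := hinj (a₁ := Sum.inr i) (a₂ := Sum.inr j) hij
    exact Sum.inr_injective this
  rw [Finset.prod_image (fun i _ j _ hij => h1 hij), Finset.prod_image (fun i _ j _ hij => h2 hij)]
  ring

lemma disj {k ℓ : ℕ} {h : Fin k → ℕ} {h' : Fin ℓ → ℕ}
    (hinj : Function.Injective (Sum.elim h h')) : Disjoint (univ.image h) (univ.image h') := by
  rw [Finset.disjoint_left]
  intro n hn hn'
  obtain ⟨i, -, hi⟩ := mem_image.1 hn
  obtain ⟨j, -, hj⟩ := mem_image.1 hn'
  have := hinj (a₁ := Sum.inl i) (a₂ := Sum.inr j) (by simp only [Sum.elim_inl, Sum.elim_inr]; omega)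
  exact absurd this Sum.inl_ne_inr

lemma nonem {ℓ : ℕ} (hℓ : 1 ≤ ℓ) (h' : Fin ℓ → ℕ) : (univ.image h').Nonempty :=
  ⟨h' ⟨0, hℓ⟩, mem_image_of_mem _ (mem_univ _)⟩

lemma liou (w : ℕ → ℝ) {k ℓ : ℕ} (h : Fin k → ℕ) (h' : Fin ℓ → ℕ) (x : ℕ) :
    corr w liouville h h' x = corr w (Pool.Agent.U26Z.NL.cm (fun _ => -1)) h h' x := by
  unfold corr
  refine Finset.sum_congr rfl fun n hn => ?_
  congr 2
  refine Finset.prod_congr rfl fun j _ => ?_
  congr 1
  have h1 : n + h' j ≠ 0 := by
    have := (mem_Icc.1 hn).1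
    omega
  unfold liouville Pool.Agent.U26Z.NL.cm
  rw [ArithmeticFunction.cardFactors_eq_sum_factorization, Finsupp.prod, Finsupp.sum,
    Finset.prod_pow_eq_pow_sum]

/-- Let `ξ p` be independent random signs, `ξ p = -1` with probability `δ p ≤ 1/2`. In (1) and (2), `w` is
any fixed function with `|w n| ≤ 1`.

(1) If `∑_{Y(x) < p ≤ x} δ p / p → ∞` for some function `Y` with `Y(x) / log log x → ∞`, then almost surely,
for all `k ≥ 0`, `ℓ ≥ 1` and all distinct shifts `h₁, …, h_k, h'₁, …, h'_ℓ`,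
`(1/x) ∑_{n ≤ x} w(n) Λ(n + h₁) ⋯ Λ(n + h_k) f(n + h'₁) ⋯ f(n + h'_ℓ) → 0` for the noisy Liouville
function `f`.

(2) If `∑ δ p / p = ∞` then each of these averages tends to `0` in probability.

(3) If `∑ δ p / p < ∞` then almost surely, for all `k ≥ 0`, `ℓ ≥ 1` and all distinct shifts, the joint
correlation sums of `Λ` and the noisy Liouville function are `o(x)` in every residue class if and only
if the joint correlation sums of `Λ` and the Liouville function are. -/
theorem result {Ω : Type} [MeasurableSpace Ω] (μ : Measure Ω) [IsProbabilityMeasure μ]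
    (ξ : ℕ → Ω → ℤ) (δ : ℕ → ℝ) (hm : ∀ p, Measurable (ξ p))
    (hξ : ∀ p ω, ξ p ω = 1 ∨ ξ p ω = -1) (hind : iIndepFun ξ μ)
    (hδ : ∀ p, 0 ≤ δ p ∧ δ p ≤ 1 / 2) (hμ : ∀ p, μ {ω | ξ p ω = -1} = ENNReal.ofReal (δ p)) :
    (∀ Y : ℕ → ℕ, Tendsto (fun x : ℕ => (Y x : ℝ) / Real.log (Real.log x)) atTop atTop →
      Tendsto (fun x : ℕ => ∑ p ∈ (Icc 1 x).filter (fun p => p.Prime ∧ Y x < p), δ p / p) atTop atTop →
      ∀ w : ℕ → ℝ, (∀ n, |w n| ≤ 1) → ∀ᵐ ω ∂μ, ∀ k ℓ : ℕ, 1 ≤ ℓ → ∀ (h : Fin k → ℕ) (h' : Fin ℓ → ℕ),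
        Function.Injective (Sum.elim h h') →
        Tendsto (fun x : ℕ => corr w (noisyLiouville ξ ω) h h' x / x) atTop (𝓝 0)) ∧
    (¬ Summable (fun p : ℕ => if p.Prime then δ p / p else 0) →
      ∀ w : ℕ → ℝ, (∀ n, |w n| ≤ 1) → ∀ k ℓ : ℕ, 1 ≤ ℓ → ∀ (h : Fin k → ℕ) (h' : Fin ℓ → ℕ),
        Function.Injective (Sum.elim h h') → ∀ ε : ℝ, 0 < ε →
        Tendsto (fun x : ℕ => μ {ω | ε * x ≤ |corr w (noisyLiouville ξ ω) h h' x|}) atTop (𝓝 0)) ∧
    (Summable (fun p : ℕ => if p.Prime then δ p / p else 0) →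
      ∀ᵐ ω ∂μ, ∀ k ℓ : ℕ, 1 ≤ ℓ → ∀ (h : Fin k → ℕ) (h' : Fin ℓ → ℕ),
        Function.Injective (Sum.elim h h') →
        (SmallInProgressions (noisyLiouville ξ ω) h h' ↔ SmallInProgressions liouville h h')) := by
  have h0 : ∀ p, 0 ≤ δ p := fun p => (hδ p).1
  have h1 : ∀ p, δ p ≤ 1 / 2 := fun p => (hδ p).2
  refine ⟨fun Y hY1 hY2 w hw => ?_, fun hs w hw k ℓ hℓ h h' hinj ε hε => ?_, fun hs => ?_⟩
  · filter_upwards [Pool.Agent.U26Z.NP.as_main hind hm hξ h0 h1 hμ hw hY1 hY2] with ω hω k ℓ hℓ h h' hinj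
    simp only [corr_eq _ _ hinj]
    exact hω (univ.image h, univ.image h') (disj hinj) (nonem hℓ h')
  · simp only [corr_eq _ _ hinj]
    exact Pool.Agent.U26Z.NP.prob_tend hind hm hξ h0 h1 hμ hw hs (disj hinj) (nonem hℓ h') hε
  · filter_upwards [Pool.Agent.U26Z.NP.sm_main hm hξ h0 hμ hs] with ω hω k ℓ hℓ h h' hinj
    unfold SmallInProgressions
    simp only [liou]
    simp only [corr_eq _ _ hinj]
    exact hω (univ.image h) (univ.image h') (disj hinj)

end Pool.Agent.Results.MP_e6fa8b_nt.NoisyJointCorrelations
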